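import Pool.Agent.J4H12.PZ.Stm

set_option autoImplicit false

open MeasureTheory Set Filter Topology Metric
open scoped Pointwise RealInnerProductSpace ENNReal

namespace Pool.Agent.J4H79.PZ

open Pool.Agent.H638.IB Pool.Agent.J4H12.PZ

/-! ### The profile -/

theorem bb_bound (p σ x : ℝ) (hσ : |σ| ≤ 1) : |bb p σ x| ≤ 2 := by
  unfold bb
  have hs := abs_le.mp hσ
  have h1 : max 0 (max (-(p * x) - σ) x) ≤ max 0 (max (-(p * x)) x) + 1 := by
    have a1 := le_max_left (0 : ℝ) (max (-(p * x)) x)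
    have a2 := le_max_right (0 : ℝ) (max (-(p * x)) x)
    have a3 := le_max_left (-(p * x)) x
    have a4 := le_max_right (-(p * x)) x
    refine max_le (by linarith) (max_le (by linarith) (by linarith))
  have h2 : max 0 (max (-(p * x)) x) ≤ max 0 (max (-(p * x) - σ) x) + 1 := by
    have a1 := le_max_left (0 : ℝ) (max (-(p * x) - σ) x)
    have a2 := le_max_right (0 : ℝ) (max (-(p * x) - σ) x)
    have a3 := le_max_left (-(p * x) - σ) x
    have a4 := le_max_right (-(p * x) - σ) x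
    refine max_le (by linarith) (max_le (by linarith) (by linarith))
  rw [abs_le]
  split_ifs <;> constructor <;> linarith

theorem bb_zero (p σ x : ℝ) (hσ : |σ| ≤ 1) (h : 1 < |max 0 x + p * x|) : bb p σ x = 0 := by
  have hs := abs_le.mp hσ
  unfold bb
  have e : ∀ a : ℝ, max 0 (max a x) = max a (max 0 x) := fun a => by
    rw [max_left_comm]
  rw [e, e]
  generalize max 0 x = y at h ⊢
  rcases lt_abs.mp h with h | h
  · rw [max_eq_right (by linarith : -(p * x) - σ ≤ y), max_eq_right (by linarith : -(p * x) ≤ y),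
      if_neg (by linarith)]
    ring
  · rw [max_eq_left (by linarith : y ≤ -(p * x) - σ), max_eq_left (by linarith : y ≤ -(p * x)),
      if_pos (by linarith)]
    ring

theorem bb_supp (p σ x R : ℝ) (hσ : |σ| ≤ 1) (hp : 1 ≤ R * |p|) (hp1 : 1 ≤ R * |1 + p|)
    (hx : R < |x|) : bb p σ x = 0 := by
  apply bb_zero p σ x hσ
  have h1 : 0 < |p| := by
    rcases (abs_nonneg p).eq_or_lt with h | h
    · rw [← h] at hp; linarith
    · exact h
  have h2 : 0 < |1 + p| := by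
    rcases (abs_nonneg (1 + p)).eq_or_lt with h | h
    · rw [← h] at hp1; linarith
    · exact h
  rcases le_total 0 x with h0 | h0
  · rw [max_eq_right h0, show x + p * x = (1 + p) * x by ring, abs_mul]
    nlinarith
  · rw [max_eq_left h0, zero_add, abs_mul]
    nlinarith

theorem bb_meas (p σ : ℝ) : Measurable (bb p σ) := by
  unfold bb
  refine Measurable.add (by fun_prop) (Measurable.ite (measurableSet_lt (by fun_prop)
    (by fun_prop)) measurable_const measurable_const)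

theorem bb_le_ind (p σ R : ℝ) (hσ : |σ| ≤ 1) (hp : 1 ≤ R * |p|) (hp1 : 1 ≤ R * |1 + p|) (x : ℝ) :
    |bb p σ x| ≤ (Icc (-R) R).indicator (fun _ => (2 : ℝ)) x := by
  by_cases hx : x ∈ Icc (-R) R
  · rw [indicator_of_mem hx]; exact bb_bound p σ x hσ
  · rw [indicator_of_notMem hx]
    have : R < |x| := by
      by_contra h
      exact hx (abs_le.mp (not_lt.mp h))
    rw [bb_supp p σ x R hσ hp hp1 this, abs_zero]

theorem ind_int (R : ℝ) : Integrable ((Icc (-R) R).indicator (fun _ => (2 : ℝ))) := by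
  refine (integrable_indicator_iff measurableSet_Icc).mpr ?_
  exact integrableOn_const (by simp) (by simp)

theorem bb_int (p σ R : ℝ) (hσ : |σ| ≤ 1) (hp : 1 ≤ R * |p|) (hp1 : 1 ≤ R * |1 + p|) :
    Integrable (bb p σ) := by
  refine (ind_int R).mono' (bb_meas p σ).aestronglyMeasurable (ae_of_all _ fun x => ?_)
  exact bb_le_ind p σ R hσ hp hp1 x

theorem bb_int_le (p σ R : ℝ) (hR : 0 ≤ R) (hσ : |σ| ≤ 1) (hp : 1 ≤ R * |p|)
    (hp1 : 1 ≤ R * |1 + p|) : ∫ x, |bb p σ x| ≤ 4 * R := by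
  have h := integral_mono (bb_int p σ R hσ hp hp1).abs (ind_int R)
    (fun x => bb_le_ind p σ R hσ hp hp1 x)
  rw [integral_indicator measurableSet_Icc, setIntegral_const] at h
  simp only [measureReal_def, Real.volume_Icc, smul_eq_mul] at h
  rw [ENNReal.toReal_ofReal (by linarith)] at h
  refine h.trans (by linarith)

/-! ### Explicit forms -/

theorem g_form {L : ℕ} (p σ τ x : ℝ) (z : E (L + 1)) (hτ : 0 ≤ τ) :
    g p (σ * τ) (τ * z 0 * x, z) = τ * z 0 ^ 2 * max 0 (max (-(p * x) - σ) x) := by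
  have hc : 0 ≤ τ * z 0 ^ 2 := by positivity
  unfold g
  rw [mul_max_of_nonneg _ _ hc, mul_max_of_nonneg _ _ hc, mul_zero]
  congr 1
  congr 1 <;> simp only <;> ring

theorem g0_form {L : ℕ} (p τ x : ℝ) (z : E (L + 1)) (hτ : 0 ≤ τ) :
    g p 0 (τ * z 0 * x, z) = τ * z 0 ^ 2 * max 0 (max (-(p * x)) x) := by
  have hc : 0 ≤ τ * z 0 ^ 2 := by positivity
  unfold g
  rw [mul_max_of_nonneg _ _ hc, mul_max_of_nonneg _ _ hc, mul_zero]
  congr 1
  congr 1 <;> simp only <;> ring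

open Classical in
theorem gd_form {L : ℕ} (p σ τ x : ℝ) (z : E (L + 1)) (hτ : 0 < τ) (hz : z 0 ≠ 0) :
    σ * τ * gd p (τ * z 0 * x, z) =
      -(τ * z 0 ^ 2 * (if max 0 x < -(p * x) then σ else 0)) := by
  have hc : 0 < τ * z 0 ^ 2 := by positivity
  unfold gd
  have e1 : max 0 (z 0 * (τ * z 0 * x)) = τ * z 0 ^ 2 * max 0 x := by
    rw [mul_max_of_nonneg _ _ hc.le, mul_zero]
    congr 1
    ring
  have e2 : -(z 0 * (p * (τ * z 0 * x))) = τ * z 0 ^ 2 * (-(p * x)) := by ring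
  have e3 : (max 0 (z 0 * (τ * z 0 * x)) < -(z 0 * (p * (τ * z 0 * x)))) ↔
      max 0 x < -(p * x) := by
    rw [e1, e2]
    exact mul_lt_mul_iff_right₀ hc
  simp only [e3]
  split_ifs <;> ring

theorem diff_form {L : ℕ} (p σ τ x : ℝ) (z : E (L + 1)) (hτ : 0 < τ) (hz : z 0 ≠ 0) :
    g p (σ * τ) (τ * z 0 * x, z) =
      (g p 0 (τ * z 0 * x, z) + σ * τ * gd p (τ * z 0 * x, z)) + τ * z 0 ^ 2 * bb p σ x := by
  rw [g_form p σ τ x z hτ.le, g0_form p τ x z hτ.le, gd_form p σ τ x z hτ hz]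
  unfold bb
  ring

theorem exp_sub (a b M : ℝ) (ha : a ≤ M) (hb : b ≤ M) :
    |Real.exp a - Real.exp b| ≤ |a - b| * Real.exp M := by
  wlog hab : a ≤ b generalizing a b
  · rw [abs_sub_comm, abs_sub_comm a b]
    exact this b a hb ha (le_of_not_ge hab)
  have h1 : Real.exp a ≤ Real.exp b := Real.exp_le_exp.mpr hab
  rw [abs_sub_comm, abs_of_nonneg (by linarith), abs_sub_comm, abs_of_nonneg (by linarith)]
  have h2 := Real.add_one_le_exp (a - b)
  have h3 : Real.exp a = Real.exp b * Real.exp (a - b) := by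
    rw [← Real.exp_add]; congr 1; ring
  have h4 : Real.exp b ≤ Real.exp M := Real.exp_le_exp.mpr hb
  have h5 := Real.exp_pos b
  calc Real.exp b - Real.exp a = Real.exp b * (1 - Real.exp (a - b)) := by rw [h3]; ring
    _ ≤ Real.exp b * (b - a) := by
      apply mul_le_mul_of_nonneg_left _ h5.le
      linarith
    _ ≤ (b - a) * Real.exp M := by
      rw [mul_comm]
      exact mul_le_mul_of_nonneg_left h4 (by linarith)

theorem z0_sq {L : ℕ} (z : E (L + 1)) : z 0 ^ 2 ≤ ‖z‖ ^ 2 := by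
  have h := PiLp.norm_apply_le z 0
  rw [Real.norm_eq_abs] at h
  rw [← sq_abs]
  exact pow_le_pow_left₀ (abs_nonneg _) h 2

theorem X_sq {L : ℕ} (p t : ℝ) (q : ℝ × E (L + 1)) : ‖q.2‖ ^ 2 ≤ ‖X p t q‖ ^ 2 := by
  unfold X
  rw [norm_mk_sq, norm_mk_sq]
  nlinarith [sq_nonneg (-(p * q.1 + t * q.2 0)), sq_nonneg q.1]

theorem g_nonneg {L : ℕ} (p t : ℝ) (q : ℝ × E (L + 1)) : 0 ≤ g p t q := le_max_left _ _

theorem gd_abs {L : ℕ} (p : ℝ) (q : ℝ × E (L + 1)) : |gd p q| ≤ q.2 0 ^ 2 := by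
  unfold gd
  split_ifs
  · rw [abs_neg, abs_of_nonneg (sq_nonneg _)]
  · rw [abs_zero]; positivity

theorem ediff {L : ℕ} (N N1 N2 : E (L + 3) → ℝ) (δ C : ℝ) (hN : Nice N N1 N2 δ C)
    (κ : ℝ) (hκ : 0 ≤ κ) (p t : ℝ) (ht : κ * |t| ≤ δ / 2) (q : ℝ × E (L + 1)) :
    |ee N κ p t q - et N κ p t q| ≤
      κ * |g p t q - (g p 0 q + t * gd p q)| * Real.exp (-(δ / 2) * ‖q.2‖ ^ 2) := by
  have hδ := hN.pos
  have h1 := hN.lower (X p t q)
  have h2 := X_sq p t q
  have h3 := g_nonneg p t q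
  have h4 := g_nonneg p 0 q
  have h5 := gd_abs p q
  have h6 := z0_sq q.2
  have h7 : -(|t| * q.2 0 ^ 2) ≤ t * gd p q := by
    have : |t * gd p q| ≤ |t| * q.2 0 ^ 2 := by
      rw [abs_mul]; exact mul_le_mul_of_nonneg_left h5 (abs_nonneg _)
    exact (abs_le.mp this).1
  have h8 : δ * ‖q.2‖ ^ 2 ≤ N (X p t q) := (mul_le_mul_of_nonneg_left h2 hδ.le).trans h1
  have h9 : 0 ≤ δ * ‖q.2‖ ^ 2 := by positivity
  have h10 : κ * |t| * q.2 0 ^ 2 ≤ (δ / 2) * ‖q.2‖ ^ 2 :=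
    mul_le_mul ht h6 (sq_nonneg _) (by linarith)
  have h11 : -(κ * |t| * q.2 0 ^ 2) ≤ κ * (t * gd p q) := by
    have := mul_le_mul_of_nonneg_left h7 hκ
    linarith
  unfold ee et
  refine (exp_sub _ _ (-(δ / 2) * ‖q.2‖ ^ 2) ?_ ?_).trans (le_of_eq ?_)
  · have := mul_nonneg hκ h3
    linarith
  · have := mul_nonneg hκ h4
    linarith
  · congr 1
    rw [show -N (X p t q) - κ * g p t q - (-N (X p t q) - κ * (g p 0 q + t * gd p q)) =
      -(κ * (g p t q - (g p 0 q + t * gd p q))) by ring, abs_neg, abs_mul, abs_of_nonneg hκ]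

/-! ### Measurability -/

theorem X_cont {L : ℕ} (p t : ℝ) : Continuous (X p t : ℝ × E (L + 1) → E (L + 3)) := by
  unfold X
  have h1 : Continuous (fun q : ℝ × E (L + 1) => (mk q.1 q.2 : E (L + 2))) := continuous_mk
  exact continuous_mk.comp ((by fun_prop : Continuous (fun q : ℝ × E (L + 1) =>
    -(p * q.1 + t * q.2 0))).prodMk h1)

theorem g_cont {L : ℕ} (p t : ℝ) : Continuous (g p t : ℝ × E (L + 1) → ℝ) := by
  unfold g
  fun_prop

theorem gd_meas {L : ℕ} (p : ℝ) : Measurable (gd p : ℝ × E (L + 1) → ℝ) := by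
  unfold gd
  refine Measurable.ite (measurableSet_lt ?_ ?_) ?_ measurable_const
  · exact Continuous.measurable (by fun_prop)
  · exact Continuous.measurable (by fun_prop)
  · exact Continuous.measurable (by fun_prop)

theorem ee_meas {L : ℕ} (N : E (L + 3) → ℝ) (hN : Continuous N) (κ p t : ℝ) :
    Measurable (ee N κ p t) := by
  unfold ee
  refine Real.measurable_exp.comp (Measurable.sub ?_ ?_)
  · exact (hN.comp (X_cont p t)).measurable.neg
  · exact (g_cont p t).measurable.const_mul κ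

theorem et_meas {L : ℕ} (N : E (L + 3) → ℝ) (hN : Continuous N) (κ p t : ℝ) :
    Measurable (et N κ p t) := by
  unfold et
  refine Real.measurable_exp.comp (Measurable.sub ?_ ?_)
  · exact (hN.comp (X_cont p t)).measurable.neg
  · exact (((g_cont p 0).measurable.add ((gd_meas p).const_mul t))).const_mul κ

/-! ### The rescaled integrand -/

/-- The rescaled integrand. -/
noncomputable def Psi {L : ℕ} (N : E (L + 3) → ℝ) (κ p σ τ : ℝ) (z : E (L + 1)) (x : ℝ) : ℝ :=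
  τ⁻¹ ^ 2 * (τ * |z 0|) *
    (ee N κ p (σ * τ) (τ * z 0 * x, z) - et N κ p (σ * τ) (τ * z 0 * x, z))

theorem H_zero {L : ℕ} (N : E (L + 3) → ℝ) (κ p t r : ℝ) (z : E (L + 1)) (hz : z 0 = 0) :
    ee N κ p t (r, z) - et N κ p t (r, z) = 0 := by
  unfold ee et g gd
  simp [hz]

theorem inner_eq {L : ℕ} (N : E (L + 3) → ℝ) (κ p σ τ : ℝ) (hτ : 0 < τ) (z : E (L + 1)) :
    τ⁻¹ ^ 2 * ∫ r : ℝ, (ee N κ p (σ * τ) (r, z) - et N κ p (σ * τ) (r, z)) =
      ∫ x : ℝ, Psi N κ p σ τ z x := by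
  unfold Psi
  by_cases hz : z 0 = 0
  · simp only [H_zero N κ p _ _ z hz]
    simp
  · rw [integral_const_mul]
    have h := Measure.integral_comp_mul_left
      (fun r : ℝ => ee N κ p (σ * τ) (r, z) - et N κ p (σ * τ) (r, z)) (τ * z 0)
    rw [h, smul_eq_mul, abs_inv, abs_mul, abs_of_pos hτ]
    have h1 : τ * |z 0| ≠ 0 := by
      have := abs_pos.mpr hz
      positivity
    field_simp

theorem Psi_le {L : ℕ} (N N1 N2 : E (L + 3) → ℝ) (δ C : ℝ) (hN : Nice N N1 N2 δ C)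
    (κ : ℝ) (hκ : 0 ≤ κ) (p σ τ : ℝ) (hσ : |σ| ≤ 1) (hτ : 0 < τ) (ht : κ * τ ≤ δ / 2)
    (z : E (L + 1)) (x : ℝ) :
    |Psi N κ p σ τ z x| ≤ κ * (|z 0| ^ 3 * Real.exp (-(δ / 2) * ‖z‖ ^ 2)) * |bb p σ x| := by
  by_cases hz : z 0 = 0
  · unfold Psi
    rw [H_zero N κ p _ _ z hz, mul_zero, abs_zero]
    positivity
  have ht' : κ * |σ * τ| ≤ δ / 2 := by
    rw [abs_mul, abs_of_pos hτ]
    have : |σ| * τ ≤ 1 * τ := mul_le_mul_of_nonneg_right hσ hτ.le
    calc κ * (|σ| * τ) ≤ κ * (1 * τ) := mul_le_mul_of_nonneg_left this hκ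
      _ ≤ δ / 2 := by linarith
  have h := ediff N N1 N2 δ C hN κ hκ p (σ * τ) ht' (τ * z 0 * x, z)
  rw [diff_form p σ τ x z hτ hz] at h
  rw [show g p 0 (τ * z 0 * x, z) + σ * τ * gd p (τ * z 0 * x, z) + τ * z 0 ^ 2 * bb p σ x -
    (g p 0 (τ * z 0 * x, z) + σ * τ * gd p (τ * z 0 * x, z)) = τ * z 0 ^ 2 * bb p σ x by ring] at h
  rw [abs_mul (τ * z 0 ^ 2), abs_of_nonneg (by positivity : 0 ≤ τ * z 0 ^ 2)] at h
  unfold Psi
  rw [abs_mul, abs_of_nonneg (by positivity : 0 ≤ τ⁻¹ ^ 2 * (τ * |z 0|))]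
  refine (mul_le_mul_of_nonneg_left h (by positivity)).trans (le_of_eq ?_)
  simp only
  rw [← sq_abs (z 0)]
  field_simp

theorem Psi_meas {L : ℕ} (N : E (L + 3) → ℝ) (hN : Continuous N) (κ p σ τ : ℝ) (z : E (L + 1)) :
    Measurable (Psi N κ p σ τ z) := by
  unfold Psi
  have h1 : Measurable (fun x : ℝ => ((τ * z 0 * x, z) : ℝ × E (L + 1))) := by fun_prop
  exact (((ee_meas N hN κ p (σ * τ)).comp h1).sub
    ((et_meas N hN κ p (σ * τ)).comp h1)).const_mul _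

theorem Psi_tendsto {L : ℕ} (N : E (L + 3) → ℝ) (hN : Continuous N) (κ p σ : ℝ) (z : E (L + 1))
    (x : ℝ) : Tendsto (fun τ : ℝ => Psi N κ p σ τ z x) (𝓝[>] 0)
      (𝓝 (-κ * (|z 0| ^ 3 * Real.exp (-N (mk 0 (mk 0 z)))) * bb p σ x)) := by
  classical
  by_cases hz : z 0 = 0
  · have e : (fun τ : ℝ => Psi N κ p σ τ z x) = fun _ => 0 := by
      funext τ
      unfold Psi
      rw [H_zero N κ p _ _ z hz, mul_zero]
    rw [e, hz, abs_zero]
    simp
  -- explicit form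
  set b : ℝ := z 0 ^ 2 * max 0 (max (-(p * x)) x) -
    z 0 ^ 2 * (if max 0 x < -(p * x) then σ else 0) with hb
  set c : ℝ := -κ * (z 0 ^ 2 * bb p σ x) with hc
  have e : ∀ τ : ℝ, 0 < τ → Psi N κ p σ τ z x =
      |z 0| * Real.exp (-N (X p (σ * τ) (τ * z 0 * x, z)) - κ * (τ * b)) *
        (τ⁻¹ * (Real.exp (c * (0 + τ)) - Real.exp (c * 0))) := by
    intro τ hτ
    unfold Psi ee et
    rw [diff_form p σ τ x z hτ hz]
    have e1 : g p 0 (τ * z 0 * x, z) + σ * τ * gd p (τ * z 0 * x, z) = τ * b := by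
      rw [g0_form p τ x z hτ.le, gd_form p σ τ x z hτ hz, hb]
      ring
    rw [e1]
    have e2 : Real.exp (-N (X p (σ * τ) (τ * z 0 * x, z)) - κ * (τ * b + τ * z 0 ^ 2 * bb p σ x)) =
        Real.exp (-N (X p (σ * τ) (τ * z 0 * x, z)) - κ * (τ * b)) * Real.exp (c * (0 + τ)) := by
      rw [← Real.exp_add, hc]
      congr 1
      ring
    rw [e2, mul_zero, Real.exp_zero]
    field_simp
  have h1 : Tendsto (fun τ : ℝ => τ⁻¹ * (Real.exp (c * (0 + τ)) - Real.exp (c * 0))) (𝓝[>] 0)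
      (𝓝 c) := by
    have hd : HasDerivAt (fun τ : ℝ => Real.exp (c * τ)) c 0 := by
      have := ((hasDerivAt_id (0 : ℝ)).const_mul c).exp
      simpa using this
    have h2 := hasDerivAt_iff_tendsto_slope_zero.mp hd
    exact h2.mono_left (nhdsWithin_mono _ (fun y (hy : 0 < y) => ne_of_gt hy))
  have h2 : Tendsto (fun τ : ℝ => |z 0| *
      Real.exp (-N (X p (σ * τ) (τ * z 0 * x, z)) - κ * (τ * b))) (𝓝[>] 0)
      (𝓝 (|z 0| * Real.exp (-N (mk 0 (mk 0 z))))) := by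
    have hcont : Continuous (fun τ : ℝ => |z 0| *
        Real.exp (-N (X p (σ * τ) (τ * z 0 * x, z)) - κ * (τ * b))) := by
      have hX : Continuous (fun τ : ℝ => (X p (σ * τ) (τ * z 0 * x, z) : E (L + 3))) := by
        unfold X
        have i1 : Continuous (fun τ : ℝ => (mk (τ * z 0 * x) z : E (L + 2))) :=
          continuous_mk.comp (by fun_prop : Continuous (fun τ : ℝ => ((τ * z 0 * x, z) :
            ℝ × E (L + 1))))
        exact continuous_mk.comp ((by fun_prop : Continuous (fun τ : ℝ =>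
          -(p * (τ * z 0 * x) + σ * τ * z 0))).prodMk i1)
      have := hN.comp hX
      exact continuous_const.mul (Real.continuous_exp.comp (this.neg.sub (by fun_prop)))
    have h3 := (hcont.tendsto 0).mono_left (nhdsWithin_le_nhds (s := Ioi (0 : ℝ)))
    have e3 : (|z 0| * Real.exp (-N (X p (σ * 0) (0 * z 0 * x, z)) - κ * (0 * b))) =
        |z 0| * Real.exp (-N (mk 0 (mk 0 z))) := by
      congr 2
      unfold X
      simp
    rw [e3] at h3
    exact h3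
  have h3 := h2.mul h1
  have e4 : |z 0| * Real.exp (-N (mk 0 (mk 0 z))) * c =
      -κ * (|z 0| ^ 3 * Real.exp (-N (mk 0 (mk 0 z)))) * bb p σ x := by
    rw [hc, ← sq_abs (z 0)]
    ring
  rw [e4] at h3
  refine h3.congr' ?_
  filter_upwards [self_mem_nhdsWithin] with τ hτ
  exact (e τ hτ).symm

/-! ### Integration -/

/-- The dominating function. -/
noncomputable def D {L : ℕ} (δ : ℝ) (z : E (L + 1)) : ℝ :=
  |z 0| ^ 3 * Real.exp (-(δ / 2) * ‖z‖ ^ 2)

theorem D_nonneg {L : ℕ} (δ : ℝ) (z : E (L + 1)) : 0 ≤ D δ z := by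
  unfold D; positivity

theorem gauss_int (n : ℕ) (b : ℝ) (hb : 0 < b) :
    Integrable (fun v : E n => Real.exp (-b * ‖v‖ ^ 2)) := by
  have h := GaussianFourier.integrable_cexp_neg_mul_sq_norm_add (V := E n)
    (b := (b : ℂ)) (by simpa using hb) 0 0
  refine (h.norm).congr (ae_of_all _ fun v => ?_)
  simp only [Complex.norm_exp]
  congr 1
  simp [← Complex.ofReal_pow]

theorem D_le {L : ℕ} (δ : ℝ) (hδ : 0 < δ) (z : E (L + 1)) :
    D δ z ≤ (1 + 2 * (4 / δ) ^ 2) * Real.exp (-(δ / 4) * ‖z‖ ^ 2) := by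
  unfold D
  have h1 : |z 0| ≤ ‖z‖ := by
    have h := PiLp.norm_apply_le z 0
    rwa [Real.norm_eq_abs] at h
  set y := ‖z‖ with hy
  have hy0 : 0 ≤ y := norm_nonneg z
  have h2 : |z 0| ^ 3 ≤ y ^ 3 := pow_le_pow_left₀ (abs_nonneg _) h1 3
  have h3 : y ^ 3 ≤ 1 + y ^ 4 := by
    rcases le_total y 1 with h | h
    · have : y ^ 3 ≤ 1 := pow_le_one₀ hy0 h
      have : 0 ≤ y ^ 4 := by positivity
      linarith
    · have : y ^ 3 ≤ y ^ 4 := pow_le_pow_right₀ h (by norm_num)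
      linarith
  have h4 := Real.quadratic_le_exp_of_nonneg (by positivity : 0 ≤ δ / 4 * y ^ 2)
  have h5 : 0 ≤ δ / 4 * y ^ 2 := by positivity
  have h6 : y ^ 4 ≤ 2 * (4 / δ) ^ 2 * Real.exp (δ / 4 * y ^ 2) := by
    have h7 : (δ / 4 * y ^ 2) ^ 2 / 2 ≤ Real.exp (δ / 4 * y ^ 2) := by linarith
    calc y ^ 4 = 2 * (4 / δ) ^ 2 * ((δ / 4 * y ^ 2) ^ 2 / 2) := by field_simp
      _ ≤ _ := mul_le_mul_of_nonneg_left h7 (by positivity)
  have h8 : 1 ≤ Real.exp (δ / 4 * y ^ 2) := Real.one_le_exp h5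
  have h9 : |z 0| ^ 3 ≤ (1 + 2 * (4 / δ) ^ 2) * Real.exp (δ / 4 * y ^ 2) := by linarith
  calc |z 0| ^ 3 * Real.exp (-(δ / 2) * y ^ 2) ≤
      ((1 + 2 * (4 / δ) ^ 2) * Real.exp (δ / 4 * y ^ 2)) * Real.exp (-(δ / 2) * y ^ 2) :=
        mul_le_mul_of_nonneg_right h9 (Real.exp_pos _).le
    _ = _ := by
      rw [mul_assoc, ← Real.exp_add]
      congr 2
      ring

theorem D_int {L : ℕ} (δ : ℝ) (hδ : 0 < δ) : Integrable (D δ : E (L + 1) → ℝ) := by
  have h := (gauss_int (L + 1) (δ / 4) (by positivity)).const_mul (1 + 2 * (4 / δ) ^ 2)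
  refine h.mono' ?_ (ae_of_all _ fun z => ?_)
  · apply Continuous.aestronglyMeasurable
    unfold D
    fun_prop
  · rw [Real.norm_eq_abs, abs_of_nonneg (D_nonneg δ z)]
    exact D_le δ hδ z

theorem inner_int_le {L : ℕ} (N N1 N2 : E (L + 3) → ℝ) (δ C : ℝ) (hN : Nice N N1 N2 δ C)
    (κ : ℝ) (hκ : 0 ≤ κ) (p σ τ R : ℝ) (hσ : |σ| ≤ 1) (hp : 1 ≤ R * |p|) (hp1 : 1 ≤ R * |1 + p|)
    (hτ : 0 < τ) (ht : κ * τ ≤ δ / 2) (z : E (L + 1)) :
    |∫ x : ℝ, Psi N κ p σ τ z x| ≤ κ * D δ z * ∫ x, |bb p σ x| := by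
  have h := norm_integral_le_of_norm_le (f := fun x => Psi N κ p σ τ z x)
    ((bb_int p σ R hσ hp hp1).abs.const_mul (κ * D δ z))
    (ae_of_all _ fun x => Psi_le N N1 N2 δ C hN κ hκ p σ τ hσ hτ ht z x)
  rw [integral_const_mul] at h
  exact h

theorem outer_eq {L : ℕ} (N : E (L + 3) → ℝ) (κ p σ τ : ℝ) (hτ : 0 < τ)
    (hi : Integrable (fun q : ℝ × E (L + 1) => ee N κ p (σ * τ) q - et N κ p (σ * τ) q)) :
    τ⁻¹ ^ 2 * ∫ q : ℝ × E (L + 1), (ee N κ p (σ * τ) q - et N κ p (σ * τ) q) =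
      ∫ z : E (L + 1), ∫ x : ℝ, Psi N κ p σ τ z x := by
  rw [Measure.volume_eq_prod] at hi ⊢
  rw [integral_prod_symm _ hi, ← integral_const_mul]
  congr 1
  funext z
  exact inner_eq N κ p σ τ hτ z

theorem outer_le {L : ℕ} (N N1 N2 : E (L + 3) → ℝ) (δ C : ℝ) (hN : Nice N N1 N2 δ C)
    (κ : ℝ) (hκ : 0 ≤ κ) (p σ τ R : ℝ) (hσ : |σ| ≤ 1) (hR : 0 ≤ R) (hp : 1 ≤ R * |p|)
    (hp1 : 1 ≤ R * |1 + p|) (hτ : 0 < τ) (ht : κ * τ ≤ δ / 2)
    (hi : Integrable (fun q : ℝ × E (L + 1) => ee N κ p (σ * τ) q - et N κ p (σ * τ) q)) :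
    |∫ q : ℝ × E (L + 1), (ee N κ p (σ * τ) q - et N κ p (σ * τ) q)| ≤
      κ * (∫ z : E (L + 1), D δ z) * (4 * R) * τ ^ 2 := by
  have hb := bb_int_le p σ R hR hσ hp hp1
  have h := norm_integral_le_of_norm_le
    (f := fun z : E (L + 1) => ∫ x : ℝ, Psi N κ p σ τ z x)
    (((D_int (L := L) δ hN.pos).const_mul κ).mul_const (∫ x, |bb p σ x|))
    (ae_of_all _ fun z => inner_int_le N N1 N2 δ C hN κ hκ p σ τ R hσ hp hp1 hτ ht z)
  rw [← outer_eq N κ p σ τ hτ hi, Real.norm_eq_abs, abs_mul, integral_mul_const,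
    integral_const_mul] at h
  have h0 : 0 ≤ κ * ∫ z : E (L + 1), D δ z :=
    mul_nonneg hκ (integral_nonneg (fun z => D_nonneg δ z))
  have h1 := h.trans (mul_le_mul_of_nonneg_left hb h0)
  rw [abs_of_nonneg (by positivity : 0 ≤ τ⁻¹ ^ 2)] at h1
  have h2 := mul_le_mul_of_nonneg_left h1 (by positivity : 0 ≤ τ ^ 2)
  rw [← mul_assoc, show τ ^ 2 * τ⁻¹ ^ 2 = 1 by field_simp, one_mul] at h2
  linarith

theorem outer_tendsto {L : ℕ} (N N1 N2 : E (L + 3) → ℝ) (δ C : ℝ) (hN : Nice N N1 N2 δ C)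
    (κ : ℝ) (hκ : 0 ≤ κ) (p σ R : ℝ) (hσ : |σ| ≤ 1) (hp : 1 ≤ R * |p|)
    (hp1 : 1 ≤ R * |1 + p|)
    (hi : ∀ τ : ℝ, 0 < τ → κ * τ ≤ δ / 2 → Integrable (fun q : ℝ × E (L + 1) =>
      ee N κ p (σ * τ) q - et N κ p (σ * τ) q)) :
    Tendsto (fun τ : ℝ => τ⁻¹ ^ 2 *
      ∫ q : ℝ × E (L + 1), (ee N κ p (σ * τ) q - et N κ p (σ * τ) q)) (𝓝[>] 0)
      (𝓝 (-κ * CN N * ∫ x, bb p σ x)) := by
  have hδ := hN.pos
  have hsm : ∀ᶠ τ in 𝓝[>] (0 : ℝ), 0 < τ ∧ κ * τ ≤ δ / 2 := by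
    have h1 : ∀ᶠ τ in 𝓝[>] (0 : ℝ), 0 < τ := by
      filter_upwards [self_mem_nhdsWithin] with τ hτ using hτ
    have h2 : Tendsto (fun τ : ℝ => κ * τ) (𝓝[>] 0) (𝓝 (κ * 0)) :=
      ((continuous_const.mul continuous_id).tendsto 0).mono_left nhdsWithin_le_nhds
    rw [mul_zero] at h2
    filter_upwards [h1, h2.eventually (gt_mem_nhds (by positivity : (0 : ℝ) < δ / 2))] with
      τ h3 h4 using ⟨h3, h4.le⟩
  have hlim : Tendsto (fun τ : ℝ => ∫ z : E (L + 1), ∫ x : ℝ, Psi N κ p σ τ z x) (𝓝[>] 0)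
      (𝓝 (∫ z : E (L + 1), -κ * (|z 0| ^ 3 * Real.exp (-N (mk 0 (mk 0 z)))) *
        ∫ x, bb p σ x)) := by
    refine tendsto_integral_filter_of_dominated_convergence
      (fun z : E (L + 1) => κ * D δ z * ∫ x, |bb p σ x|) ?_ ?_ ?_ ?_
    · filter_upwards [hsm] with τ hτ
      have h1 := (hi τ hτ.1 hτ.2).aestronglyMeasurable
      rw [Measure.volume_eq_prod] at h1
      have h2 := h1.prod_swap.integral_prod_right'
      have h3 := h2.const_mul (τ⁻¹ ^ 2)
      refine h3.congr (ae_of_all _ fun z => ?_)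
      exact inner_eq N κ p σ τ hτ.1 z
    · filter_upwards [hsm] with τ hτ
      exact ae_of_all _ fun z =>
        inner_int_le N N1 N2 δ C hN κ hκ p σ τ R hσ hp hp1 hτ.1 hτ.2 z
    · exact ((D_int (L := L) δ hN.pos).const_mul κ).mul_const _
    · refine ae_of_all _ fun z => ?_
      rw [← integral_const_mul]
      refine tendsto_integral_filter_of_dominated_convergence
        (fun x : ℝ => κ * D δ z * |bb p σ x|) ?_ ?_ ?_ ?_
      · exact Eventually.of_forall fun τ =>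
          (Psi_meas N hN.cont κ p σ τ z).aestronglyMeasurable
      · filter_upwards [hsm] with τ hτ
        exact ae_of_all _ fun x => Psi_le N N1 N2 δ C hN κ hκ p σ τ hσ hτ.1 hτ.2 z x
      · exact (bb_int p σ R hσ hp hp1).abs.const_mul _
      · exact ae_of_all _ fun x => Psi_tendsto N hN.cont κ p σ z x
  have e : (∫ z : E (L + 1), -κ * (|z 0| ^ 3 * Real.exp (-N (mk 0 (mk 0 z)))) *
      ∫ x, bb p σ x) = -κ * CN N * ∫ x, bb p σ x := by
    rw [integral_mul_const, integral_const_mul]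
    rfl
  rw [e] at hlim
  refine hlim.congr' ?_
  filter_upwards [hsm] with τ hτ
  exact (outer_eq N κ p σ τ hτ.1 (hi τ hτ.1 hτ.2)).symm

/-- PB. -/
theorem t_PB : S_INT → S_PB := by
  intro hINT L N N1 N2 δ C hN κ hκ hκδ
  obtain ⟨i1, i2, -⟩ := hINT L N N1 N2 δ C hN κ hκ hκδ
  have hi : ∀ p t : ℝ, κ * |t| ≤ δ / 2 → Integrable (fun q : ℝ × E (L + 1) =>
      ee N κ p t q - et N κ p t q) := fun p t ht => (i1 p t).sub (i2 p t ht)
  refine ⟨?_, ?_⟩
  · intro p hp0 hp1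
    have ha : 0 < |p| := abs_pos.mpr hp0
    have hb : 0 < |1 + p| := abs_pos.mpr (fun h => hp1 (by linarith))
    have hR1 : 1 ≤ (|p|⁻¹ + |1 + p|⁻¹) * |p| := by
      rw [add_mul, inv_mul_cancel₀ ha.ne']
      have : 0 ≤ |1 + p|⁻¹ * |p| := by positivity
      linarith
    have hR2 : 1 ≤ (|p|⁻¹ + |1 + p|⁻¹) * |1 + p| := by
      rw [add_mul, inv_mul_cancel₀ hb.ne']
      have : 0 ≤ |p|⁻¹ * |1 + p| := by positivity
      linarith
    constructor
    · have h := outer_tendsto N N1 N2 δ C hN κ hκ p 1 _ (by simp) hR1 hR2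
        (fun τ hτ hτ2 => hi p (1 * τ) (by rwa [one_mul, abs_of_pos hτ]))
      simpa only [one_mul] using h
    · have h := outer_tendsto N N1 N2 δ C hN κ hκ p (-1) _ (by simp) hR1 hR2
        (fun τ hτ hτ2 => hi p (-1 * τ) (by rwa [neg_one_mul, abs_neg, abs_of_pos hτ]))
      have hneg : Tendsto (fun t : ℝ => -t) (𝓝[<] 0) (𝓝[>] 0) := by
        have := tendsto_neg_nhdsLT (a := (0 : ℝ))
        rwa [neg_zero] at this
      have h2 := h.comp hneg
      refine h2.congr fun t => ?_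
      simp only [Function.comp, neg_one_mul, neg_neg, inv_neg, even_two, Even.neg_pow]
  · intro T hT h0 h1
    -- uniform bounds
    obtain ⟨R, hR, hRT⟩ : ∃ R : ℝ, 0 ≤ R ∧ ∀ p ∈ T, 1 ≤ R * |p| ∧ 1 ≤ R * |1 + p| := by
      have hc : ContinuousOn (fun p : ℝ => |p|⁻¹ + |1 + p|⁻¹) T := by
        refine ContinuousOn.add (ContinuousOn.inv₀ (by fun_prop) ?_)
          (ContinuousOn.inv₀ (by fun_prop) ?_)
        · intro p hp h
          exact h0 (abs_eq_zero.mp h ▸ hp)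
        · intro p hp h
          have : p = -1 := by have := abs_eq_zero.mp h; linarith
          exact h1 (this ▸ hp)
      obtain ⟨R, hR⟩ := hT.exists_bound_of_continuousOn hc
      refine ⟨max R 0, le_max_right _ _, fun p hp => ?_⟩
      have ha : 0 < |p| := abs_pos.mpr (fun h => h0 (h ▸ hp))
      have hb : 0 < |1 + p| := abs_pos.mpr (fun h => h1 (by
        have : p = -1 := by linarith
        exact this ▸ hp))
      have h2 := hR p hp
      rw [Real.norm_eq_abs, abs_of_nonneg (by positivity)] at h2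
      have h3 : |p|⁻¹ + |1 + p|⁻¹ ≤ max R 0 := h2.trans (le_max_left _ _)
      have h4 : |p|⁻¹ ≤ max R 0 := by
        have : 0 ≤ |1 + p|⁻¹ := by positivity
        linarith
      have h5 : |1 + p|⁻¹ ≤ max R 0 := by
        have : 0 ≤ |p|⁻¹ := by positivity
        linarith
      constructor
      · calc (1 : ℝ) = |p|⁻¹ * |p| := (inv_mul_cancel₀ ha.ne').symm
          _ ≤ _ := mul_le_mul_of_nonneg_right h4 ha.le
      · calc (1 : ℝ) = |1 + p|⁻¹ * |1 + p| := (inv_mul_cancel₀ hb.ne').symm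
          _ ≤ _ := mul_le_mul_of_nonneg_right h5 hb.le
    have hδ := hN.pos
    refine ⟨κ * (∫ z : E (L + 1), D δ z) * (4 * R), δ / 2 / (κ + 1), by positivity, ?_⟩
    intro p hp t ht
    have hκt : κ * |t| ≤ δ / 2 := by
      have : (κ + 1) * |t| ≤ δ / 2 := by
        rw [le_div_iff₀ (by positivity)] at ht
        linarith
      nlinarith [abs_nonneg t]
    have hI : 0 ≤ ∫ z : E (L + 1), D δ z := integral_nonneg (fun z => D_nonneg δ z)
    rcases lt_trichotomy t 0 with h | h | h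
    · have h2 := outer_le N N1 N2 δ C hN κ hκ p (-1) (-t) R (by simp) hR (hRT p hp).1 (hRT p hp).2
        (by linarith) (by rwa [abs_of_neg h] at hκt)
        (hi p (-1 * -t) (by rwa [neg_one_mul, neg_neg]))
      simpa only [neg_one_mul, neg_neg, even_two, Even.neg_pow] using h2
    · subst h
      have : ∀ q : ℝ × E (L + 1), ee N κ p 0 q - et N κ p 0 q = 0 := by
        intro q
        unfold ee et
        rw [zero_mul, add_zero, sub_self]
      simp only [this, integral_zero, abs_zero]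
      positivity
    · have h2 := outer_le N N1 N2 δ C hN κ hκ p 1 t R (by simp) hR (hRT p hp).1 (hRT p hp).2
        h (by rwa [abs_of_pos h] at hκt) (hi p (1 * t) (by rwa [one_mul]))
      simpa only [one_mul] using h2

end Pool.Agent.J4H79.PZ
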